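import Pool.Agent.N211.TP3.Main

/-!
# The Mumford-Tate conjecture for all powers of a variety follows from one power

Let `Y` be a smooth projective variety over a number field `L` (or over a finitely generated subfield
of the field of complex numbers), let `b` be the sum of its Betti numbers, let `ℓ` be a prime number
and let `M = (4 b b! (b ^ 2 + 1)) ^ (b ^ 2 + 1)`. Let `𝓗_{j,k}` and `𝓣_{j,k}` be the subspaces of the
cohomology of degree `2 j` of `Y ^ k` generated by the Hodge classes and by the Tate classes.

* If `𝓗_{j,M} ⊆ 𝓣_{j,M}` for all `j`, then `𝓗_{j,k} ⊆ 𝓣_{j,k}` for all `j` and all `k`.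
* Suppose that the Galois representations on the cohomology of even degree of `Y ^ M` are
  semisimple. If `𝓣_{j,M} ⊆ 𝓗_{j,M}` for all `j`, then `𝓣_{j,k} ⊆ 𝓗_{j,k}` for all `j` and all `k`. If
  `𝓗_{j,M} = 𝓣_{j,M}` for all `j`, then `𝓗_{j,k} = 𝓣_{j,k}` for all `j` and all `k`, and the Galois
  representations on the cohomology of all powers of `Y` are semisimple.

In the Lean statement `pw X n` is the product of `n + 1` copies of `X`, `T` is the theory
`X ↦ H(X, ℚ)`, `Γ` is the Galois group and `E` is the field of `ℓ`-adic numbers.

The proof. For the first statement: the Hodge classes on the powers which are Tate classes form a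
system of classes which is stable under products, coordinate pull-backs and push-forwards; by the
bounded power theorem for Hodge classes it contains all Hodge classes if it contains those on
`Y ^ M`. For the second statement: every Frobenius element gives, by the slopes of its eigenvalues at
the places above `p`, one-parameter groups (the Newton cocharacters), whose weights are bounded in
terms of `b`; a class of even degree is a Tate class if and only if it is fixed by them. By a counting
argument matrices which fix the Tate classes on `Y ^ M` fix all Tate classes on all powers. As the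
Tate classes on `Y ^ M` are combinations of Hodge classes, the group of these matrices is stable
under the adjoints for the polarisation, and a positivity argument completes the proof.
-/

open CategoryTheory AlgebraicGeometry

universe u

namespace Pool.Agent.Results.MP_6c781a_ag.BoundedPower

open Pool.Agent.H914 Pool.Agent.Y121.AHS Pool.Agent.N211.TP2 Pool.Agent.N211.TP3

/-- **The Mumford-Tate conjecture for all powers of `X` follows from one power of `X`.** -/
theorem result {k : Type u} [Field k] {𝒱 : VarClass k} {ops : CycleOps 𝒱} (T : HodgeTheory ops)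
    {X : 𝒱.Obj} (ψ : Bil T.W.K (T.W.H X)) (hψ : IsPolarisation T X ψ)
    {E : Type} [Field E] [Algebra T.W.K E] [TopologicalSpace E] [IsTopologicalRing E] [T2Space E]
    (hE : Nonempty (E →+* ℂ)) {Γ : Type} [Group Γ] [TopologicalSpace Γ] [IsTopologicalGroup Γ]
    (χ : Γ → E) (ρ : ∀ n, Γ → PowH T E X n → PowH T E X n)
    (hG : IsGalois (cohOps T E ψ) χ ρ) (hA : IsArithmetic (cohOps T E ψ) χ ρ)
    (hC : ∀ n j, ∀ x ∈ cycClasses T E X n j, IsTate (cohOps T E ψ) χ ρ j x)
    {N : ℕ} (hN : N + 1 = exponent (Module.finrank T.W.K (T.W.H X))) :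
    ((∀ j, hodgeSpan T E X N j ≤ tateSpan (cohOps T E ψ) χ ρ N j) →
      ∀ n j, hodgeSpan T E X n j ≤ tateSpan (cohOps T E ψ) χ ρ n j) ∧
    ((∀ j, IsSemisimple (cohOps T E ψ) ρ ⊤ N (2 * j)) →
      ((∀ j, tateSpan (cohOps T E ψ) χ ρ N j ≤ hodgeSpan T E X N j) →
        ∀ n j, tateSpan (cohOps T E ψ) χ ρ n j ≤ hodgeSpan T E X n j) ∧
      ((∀ j, hodgeSpan T E X N j = tateSpan (cohOps T E ψ) χ ρ N j) →
        (∀ n j, hodgeSpan T E X n j = tateSpan (cohOps T E ψ) χ ρ n j) ∧
        ∀ n (Δ : Subgroup Γ), Δ.FiniteIndex → ∀ i, IsSemisimple (cohOps T E ψ) ρ Δ n i)) :=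
  main hψ hE hG hA hC hN

end Pool.Agent.Results.MP_6c781a_ag.BoundedPower
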