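import Pool.Agent.N202.NC.MainT

/-!
# The Mumford-Tate conjecture for varieties without CM part is decided on the fourth power

`Y` is a smooth projective variety over a number field, `Γ` the absolute Galois group, `P` the
polarised Hodge structure `H(Y(ℂ), ℚ)`, in a basis, `ρ` the Galois representation on `H(Y, ℚ_ℓ)` in
the same basis (comparison theorem), `χ` the character of `ℚ_ℓ(-1)`.  Assume that the centre of the
algebra of endomorphisms of `P` is totally real.

* If the Hodge classes on `Y^4` are Tate classes, so are the Hodge classes on all powers `Y^k`.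
* If `Γ` acts semisimply on `End H(Y, ℚ_ℓ)`, the Hodge classes on `Y^2` are Tate classes and the
  Tate classes on `Y^4` are combinations of Hodge classes, then the Tate classes on all powers
  `Y^k` are combinations of Hodge classes.
-/

namespace Pool.Agent.Results.MP_6c781a_ag.FourthPowerDecides

open Pool.Agent.N202.NC

theorem result (ι : Type) [Fintype ι] [DecidableEq ι] (P : HodgeStructure ι) (Γ : Type) [Group Γ]
    (ℓ : ℕ) [Fact ℓ.Prime] (ρ : Γ →* Matrix ι ι ℚ_[ℓ]) (χ : Γ →* ℚ_[ℓ]) :
    GaloisRep P.deg ρ χ → P.NoCM →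
    (HodgeInTate P ρ χ 4 → ∀ k, 0 < k → HodgeInTate P ρ χ k) ∧
    (SemisimpleEnd ρ → HodgeInTate P ρ χ 2 → TateInHodge P ρ χ 4 →
      ∀ k, 0 < k → TateInHodge P ρ χ k) :=
  fun h hP => main P hP ρ χ h

end Pool.Agent.Results.MP_6c781a_ag.FourthPowerDecides
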