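import Pool.Agent.N179.PC.MTFin

/-!
# The Mumford–Tate conjecture for the products of an arbitrary variety with members of an independent family

Let `F ⊂ ℂ` be a number field (or a finitely generated field), `W` the `ℓ`-adic cohomology of the
smooth projective varieties `X` over `F` (over the algebraic closure) with coefficients in an algebraic
closure `K` of `ℚ_ℓ` (a field isomorphic to `ℂ`). Two groups act on `H(X) = H_et(X, ℚ_ℓ) ⊗ K =
H(X(ℂ), ℚ) ⊗ K`: the Galois group `G` of `F`, and the Mumford–Tate group `Γ`, the group of the `K`-valued
points of the fundamental group of the category of the polarisable rational Hodge structures; `χ` is in
both cases the action on the Tate twist `H^2(ℙ^1)`. The Tate classes in `H^(2 j)(X)` are those which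
are multiplied by `χ(g)^j` by all `g` in an open subgroup of `G`; the Hodge classes are a rational
structure on the space of the classes which are multiplied by `χ(g)^j` by `Γ` (`IsHodgeTheory`). The
Mumford–Tate conjecture for `X` is the statement that the space spanned by the Hodge classes is the
space of the Tate classes.

A class (or a vector of a representation) is *semi-invariant* if a subgroup of finite index
multiplies it by a character. Let `V_i`, `i ∈ ι`, be any family of vector spaces with actions of both
groups such that for both groups the representations `End V_i` are semisimple and pairwise
independent: for `i ≠ j` every equivariant linear map `End V_i → End V_j` has its values in the span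
of the semi-invariant vectors. For instance `V_i = H^1(A_i)` for pairwise not isogenous elliptic
curves without complex multiplication, for pairwise not isogenous abelian varieties `A_i` with
`End A_i = ℤ` and of odd dimension; or transcendental lattices of K3 surfaces without real or complex
multiplication, pairwise not isomorphic (up to a twist) and of rank different from `4`.

Let `P_a` be varieties with cohomology generated by `V_(i_a)`, for instance arbitrary powers of `A_i` or
of the K3 surface, for which the Mumford–Tate conjecture is known and for which the semi-invariant
classes are combinations of Hodge and Tate classes (`IsMTFactor`).

**Theorem.** Let `Z` be an **arbitrary** smooth projective variety over `F`. There are finite sets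
`E`, `E'` of indices, with at most `(b - b') / 2` elements, where `b` is the sum of the Betti numbers of
`Z` and `b' ≥ 1` is the dimension of the span of the semi-invariant classes for `Γ` or `G`, such
that for all products `Y = P_1 × ... × P_n × Z'` with pairwise different indices `i_a ∉ E ∪ E'`, and all
varieties `Z'` generated by the cohomology of `Z` (for instance `Z' = Z^k`; then the `Y` contain all
powers of the `P_1 × ... × P_n × Z`):

**the Mumford–Tate conjecture is true for `Y` if and only if it is true for `Z'`.**

The exceptional members may be moved to the base, as `E(V_j) ⊆ {j}`: in every product of `Z` with powers
of members of the family all members but at most `b - b'` can be split off. For products of abelian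
varieties (and K3 surfaces) it is known that the Mumford–Tate conjecture for the factors implies the
conjecture for the product (Commelin); here `Z` is arbitrary, and neither semisimplicity nor the
conjecture that Hodge classes are absolute Hodge classes is known.

The proof: the Künneth formula for semi-invariant classes of `MP_021685_ag.IndependenceFromSquares`
for both groups. The Tate classes on `P × Z'` are combinations of products of Tate classes on
`P` and `Z'`, and the Hodge classes are combinations of products of Hodge classes. One goes back by
push-forward.
-/

set_option autoImplicit false

universe u

namespace Pool.Agent.Results.MP_6c781a_ag.IndependentFamilies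

open Pool.Agent.H914 Pool.Agent.N179.GR.S Pool.Agent.N179.PC

/-- **The Mumford–Tate conjecture, independent families, and an arbitrary variety.** -/
theorem result {k : Type u} [Field k] {𝒱 : VarClass k} {ops : CycleOps 𝒱}
    {W : WeilCohomology.{u, 0} ops} (hK : Nonempty (W.K ≃+* ℂ)) {Γ : Type} [Group Γ]
    {T : HodgeData W Γ} (hT : IsHodgeTheory T) {G : Type} [Group G] {Q : GaloisData W G}
    (hQ : IsGalois Q) {ι : Type} {V : ι → GRep W.K Γ} (hV : Family V) {V' : ι → GRep W.K G}
    (hV' : Family V') :
    ∃ (E : GRep W.K Γ → Set ι) (E' : GRep W.K G → Set ι), MTExceptionalSets T Q V V' E E' :=
  final_mt hK hT hQ hV hV'

end Pool.Agent.Results.MP_6c781a_ag.IndependentFamilies
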