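import Pool.Agent.N174.Lef.UMain

/-!
# A Lefschetz theorem for the Mumford-Tate conjecture

Let `f : X ⟶ Y` be a morphism of smooth projective varieties over a field `L` (a number field, or
finitely generated over the rational numbers), such that the vanishing cohomology `E` of `f` (the
kernel of the push-forward) is in the middle degree. Let `Γ` be the Galois group of `L`, or its
image, which acts on the `ℓ`-adic cohomology of `X`, `Y` and `Z`, and let `Γ' → Γ` be a
homomorphism such that `E` is irreducible under all subgroups of finite index of `Γ'`, some
`g ∈ Γ'` acts trivially on the cohomology of `Y` and of `Z` and by a Picard-Lefschetz formula on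
`E`, and the classes on `X ^ n × Z` which are linear combinations of Hodge classes are fixed (up to
the twist) by subgroups of finite index of `Γ'`. (For instance, `Γ'` is the fundamental group of the
base of a family, and `X` is Hodge generic in this family.) Suppose that the retraction of `f^*`
along `E` is given by linear combinations of Hodge classes.

If the spaces spanned by the Hodge classes and by the Tate classes on `Y ^ n × Z` are equal, then
they are equal on `X ^ n × Z`, in all codimensions. There is no condition on `n` if the dimension of
`X` is odd; if it is even, the condition is `n < dim E`.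

In the theorem `P` may be any system of classes which is stable under linear combinations, products,
pull-backs and push-forwards.
-/

open CategoryTheory Pool.Agent.H914 Pool.Agent.R920.MT Pool.Agent.N174.Lef.Mot

universe u v w w'

namespace Pool.Agent.Results.MP_6c781a_ag.MumfordTateLefschetz

/-- **The Lefschetz theorem for the Mumford-Tate conjecture.** -/
theorem result {k : Type u} [Field k] {𝒱 : VarClass k} {ops : CycleOps 𝒱}
    {W : WeilCohomology.{u, v} ops} {Γ : Type w} [Group Γ] {Γ' : Type w'} [Group Γ']
    {χ : Γ →* W.Kˣ} {ι : Γ' →* Γ} {P : Property W} (hP : IsClassSystem P)
    {X Y Z V V' : AVar W Γ} {n : ℕ} {f : X.X ⟶ Y.X} (h : IsLefschetz χ P X Y f)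
    (hn : BigMonodromy χ ι X Y Z f) (hE : LargeIfEven W f n) (hV : IsPowProd X Z n V)
    (hfix : AreTate (χ.comp ι) P (V.res ι)) (hV' : IsPowProd Y Z n V')
    (hMT : MumfordTate χ P V') : MumfordTate χ P V :=
  Pool.Agent.N174.Lef.Mot.mumfordTate hP h hn hE hV hfix hV' hMT

end Pool.Agent.Results.MP_6c781a_ag.MumfordTateLefschetz
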